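import Pool.Agent.N879.GD.Stm
import Mathlib

set_option autoImplicit false

/-! # Project GD, COV: the Hausdorff dimension of a limsup set -/

namespace Pool.Agent.J4H8.GD

open MeasureTheory Set Filter Topology
open scoped ENNReal NNReal

/-- a cube of the grid of mesh `r` -/
def cube {k : ℕ} (r : ℝ) (m : Fin k → ℤ) : Set (Fin k → ℝ) :=
  Set.pi univ (fun i => Ico ((m i : ℝ) * r) (((m i : ℝ) + 1) * r))

lemma cube_meas {k : ℕ} (r : ℝ) (m : Fin k → ℤ) : MeasurableSet (cube r m) :=
  MeasurableSet.univ_pi fun _ => measurableSet_Ico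

lemma cube_vol {k : ℕ} (r : ℝ) (m : Fin k → ℤ) :
    volume (cube r m) = ENNReal.ofReal r ^ k := by
  unfold cube
  rw [Real.volume_pi_Ico]
  have : ∀ i : Fin k, ((m i : ℝ) + 1) * r - (m i : ℝ) * r = r := fun i => by ring
  simp only [this, Finset.prod_const, Finset.card_univ, Fintype.card_fin]

lemma mem_cube {k : ℕ} {r : ℝ} (hr : 0 < r) (x : Fin k → ℝ) :
    x ∈ cube r (fun i => ⌊x i / r⌋) := by
  intro i _
  constructor
  · have := Int.floor_le (x i / r)
    rwa [le_div_iff₀ hr] at this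
  · have := Int.lt_floor_add_one (x i / r)
    rwa [div_lt_iff₀ hr] at this

lemma cube_eq {k : ℕ} {r : ℝ} (hr : 0 < r) {m : Fin k → ℤ} {x : Fin k → ℝ} (hx : x ∈ cube r m) :
    m = fun i => ⌊x i / r⌋ := by
  funext i
  obtain ⟨h1, h2⟩ := hx i (mem_univ i)
  rw [eq_comm, Int.floor_eq_iff]
  exact ⟨by rwa [le_div_iff₀ hr], by rwa [div_lt_iff₀ hr]⟩

lemma cube_disj {k : ℕ} {r : ℝ} (hr : 0 < r) {m m' : Fin k → ℤ} (h : m ≠ m') :
    Disjoint (cube r m) (cube r m') := by
  rw [Set.disjoint_left]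
  intro x hx hx'
  exact h ((cube_eq hr hx).trans (cube_eq hr hx').symm)

lemma cube_dist {k : ℕ} {r : ℝ} (hr : 0 < r) {m : Fin k → ℤ} {x y : Fin k → ℝ}
    (hx : x ∈ cube r m) (hy : y ∈ cube r m) : dist y x ≤ r := by
  rw [dist_pi_le_iff hr.le]
  intro i
  obtain ⟨h1, h2⟩ := hx i (mem_univ i)
  obtain ⟨h3, h4⟩ := hy i (mem_univ i)
  rw [Real.dist_eq, abs_le]
  constructor <;> nlinarith

/-- one scale -/
lemma one_scale {k : ℕ} {s r v : ℝ} (hs : 0 < s) (hr : 0 < r) 
    {B B' : Set (Fin k → ℝ)} (h : ∀ x ∈ B, Metric.closedBall x r ⊆ B')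
    (hB : volume B' ≤ ENNReal.ofReal v) (t : (Fin k → ℤ) → Set (Fin k → ℝ))
    (ht : ∀ m, t m = ∅ ∨ (t m = cube r m ∧ (cube r m ∩ B).Nonempty)) :
    ∑' m, Metric.ediam (t m) ^ s ≤ ENNReal.ofReal (v * r ^ (s - k)) := by
  have h1 : ∀ m, Metric.ediam (t m) ^ s ≤ ENNReal.ofReal (r ^ (s - k)) * volume (t m) := by
    intro m
    rcases ht m with h0 | ⟨h0, -⟩
    · rw [h0]
      simp [hs]
    · rw [h0, cube_vol]
      have h2 : Metric.ediam (cube r m) ≤ ENNReal.ofReal r := by
        apply Metric.ediam_le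
        intro x hx y hy
        rw [edist_dist]
        exact ENNReal.ofReal_le_ofReal (cube_dist hr hy hx)
      calc Metric.ediam (cube r m) ^ s ≤ (ENNReal.ofReal r) ^ s :=
            ENNReal.rpow_le_rpow h2 hs.le
        _ = ENNReal.ofReal (r ^ s) := ENNReal.ofReal_rpow_of_pos hr
        _ = ENNReal.ofReal (r ^ (s - k) * r ^ k) := by
            congr 1
            rw [← Real.rpow_natCast, ← Real.rpow_add hr]
            congr 1
            ring
        _ = ENNReal.ofReal (r ^ (s - k)) * ENNReal.ofReal r ^ k := by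
            rw [ENNReal.ofReal_mul (Real.rpow_nonneg hr.le _), ENNReal.ofReal_pow hr.le]
  have hsub : ∀ m, t m ⊆ cube r m := by
    intro m
    rcases ht m with h0 | ⟨h0, -⟩
    · rw [h0]; exact empty_subset _
    · rw [h0]
  calc ∑' m, Metric.ediam (t m) ^ s ≤ ∑' m, ENNReal.ofReal (r ^ (s - k)) * volume (t m) :=
        ENNReal.tsum_le_tsum h1
    _ = ENNReal.ofReal (r ^ (s - k)) * ∑' m, volume (t m) := ENNReal.tsum_mul_left
    _ = ENNReal.ofReal (r ^ (s - k)) * volume (⋃ m, t m) := by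
        rw [measure_iUnion]
        · intro m m' hmm
          exact (cube_disj hr hmm).mono (hsub m) (hsub m')
        · intro m
          rcases ht m with h0 | ⟨h0, -⟩
          · rw [h0]; exact MeasurableSet.empty
          · rw [h0]; exact cube_meas r m
    _ ≤ ENNReal.ofReal (r ^ (s - k)) * ENNReal.ofReal v := by
        gcongr
        refine le_trans (measure_mono ?_) hB
        intro y hy
        obtain ⟨m, hm⟩ := mem_iUnion.1 hy
        rcases ht m with h0 | ⟨h0, x, hx, hxB⟩
        · rw [h0] at hm; exact absurd hm (notMem_empty y)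
        · rw [h0] at hm
          exact h x hxB (Metric.mem_closedBall.2 (cube_dist hr hx hm))
    _ = ENNReal.ofReal (v * r ^ (s - k)) := by
        rw [mul_comm v, ENNReal.ofReal_mul (Real.rpow_nonneg hr.le _)]

open Classical in
theorem t_COV : Pool.Agent.N879.GD.S_COV := by
  intro k s B B' r v hk hs hr hr0 hv hBB hvol hsum
  obtain ⟨N, hN⟩ := eventually_atTop.1 (hBB.and hvol)
  set E : Set (Fin k → ℝ) := {x | ∃ᶠ n in atTop, x ∈ B n} with hE
  let T : ℕ → ℕ × (Fin k → ℤ) → Set (Fin k → ℝ) := fun n p =>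
    if n ≤ p.1 ∧ (cube (r p.1) p.2 ∩ B p.1).Nonempty then cube (r p.1) p.2 else ∅
  let r' : ℕ → ℝ≥0∞ := fun n => ⨆ j : ℕ, ⨆ _ : n ≤ j, ENNReal.ofReal (r j)
  have hr' : Tendsto r' atTop (𝓝 0) := by
    rw [ENNReal.tendsto_nhds_zero]
    intro ε hε
    have h1 : Tendsto (fun j => ENNReal.ofReal (r j)) atTop (𝓝 0) := by
      have := ENNReal.tendsto_ofReal hr0
      rwa [ENNReal.ofReal_zero] at this
    obtain ⟨M, hM⟩ := eventually_atTop.1 ((ENNReal.tendsto_nhds_zero.1 h1) ε hε)
    filter_upwards [eventually_ge_atTop M] with n hn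
    exact iSup₂_le fun j hj => hM j (hn.trans hj)
  have hS : ∑' j, ENNReal.ofReal (v j * r j ^ (s - k)) ≠ ⊤ := by
    rw [← ENNReal.ofReal_tsum_of_nonneg
      (fun j => mul_nonneg (hv j) (Real.rpow_nonneg (hr j).le _)) hsum]
    exact ENNReal.ofReal_ne_top
  have key : μH[s] E ≤ ∑' j, ENNReal.ofReal (v j * r j ^ (s - k)) := by
    refine le_trans (Measure.hausdorffMeasure_le_liminf_tsum (l := atTop) s E r' hr' T ?_ ?_) ?_
    · refine Eventually.of_forall fun n p => ?_
      simp only [T]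
      split_ifs with hp
      · refine le_trans ?_ (le_iSup₂ (f := fun j (_ : n ≤ j) => ENNReal.ofReal (r j)) p.1 hp.1)
        apply Metric.ediam_le
        intro x hx y hy
        rw [edist_dist]
        exact ENNReal.ofReal_le_ofReal (cube_dist (hr _) hy hx)
      · simp
    · refine Eventually.of_forall fun n x hx => ?_
      obtain ⟨j, hj, hxj⟩ := (frequently_atTop.1 hx) n
      refine mem_iUnion.2 ⟨(j, fun i => ⌊x i / r j⌋), ?_⟩
      have hc := mem_cube (hr j) x
      simp only [T]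
      rw [if_pos ⟨hj, ⟨x, hc, hxj⟩⟩]
      exact hc
    · refine le_trans liminf_le_limsup (limsup_le_of_le (h := ?_))
      filter_upwards [eventually_ge_atTop N] with n hn
      rw [ENNReal.tsum_prod']
      refine ENNReal.tsum_le_tsum fun j => ?_
      by_cases hj : n ≤ j
      · obtain ⟨h1, h2⟩ := hN j (hn.trans hj)
        refine one_scale hs (hr j) h1 h2 (fun m => T n (j, m)) fun m => ?_
        simp only [T]
        by_cases hp : (cube (r j) m ∩ B j).Nonempty
        · right
          exact ⟨if_pos ⟨hj, hp⟩, hp⟩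
        · left
          exact if_neg fun h => hp h.2
      · have : ∀ m, T n (j, m) = ∅ := fun m => if_neg fun h => hj h.1
        simp only [this]
        simp [hs]
  have h2 : dimH E ≤ (s.toNNReal : ℝ≥0∞) := by
    apply dimH_le_of_hausdorffMeasure_ne_top
    rw [Real.coe_toNNReal s hs.le]
    exact ne_top_of_le_ne_top hS key
  exact h2

end Pool.Agent.J4H8.GD
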