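import Pool.Agent.J4H8.GD.Mb
import Mathlib

set_option autoImplicit false

/-! # Project GD, DET: parameters which are bad only finitely often -/

namespace Pool.Agent.J4H8.GD

open MeasureTheory Set Filter Topology
open scoped ENNReal NNReal
open Pool.Agent.Y969.GP (ff)
open Pool.Agent.N879.GD

lemma ff_nonneg (u : ℝ) : 0 ≤ ff u := by
  unfold ff
  positivity

lemma gr_norm {F : ℝ → ℂ} (hF : Gr F) : Gr (fun t => ((‖F t‖ : ℝ) : ℂ)) := by
  refine ⟨Complex.measurable_ofReal.comp hF.1.norm, fun ε hε => ?_⟩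
  obtain ⟨C, hC, h⟩ := hF.2 ε hε
  refine ⟨C, hC, fun T hT => ?_⟩
  have : ∀ t, ‖((‖F t‖ : ℝ) : ℂ)‖ₑ = ‖F t‖ₑ := fun t => by
    rw [← ofReal_norm, ← ofReal_norm, Complex.norm_real, norm_norm]
  simp only [this]
  exact h T hT

lemma D0_prod_le {k : ℕ} {l : Fin k → ℝ} (hl : ∀ j, 0 < l j) {η : ℝ} (hη : 0 < η) :
    ∃ M : ℝ, 0 < M ∧ ∀ t : ℝ, 1 ≤ t → |∏ j, D0 (l j * t)| ≤ M * t ^ η := by
  set ε : ℝ := η / (k + 1) with hε
  have hε0 : 0 < ε := by positivity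
  have h : ∀ j, ∃ K : ℝ, 0 ≤ K ∧ ∀ t : ℝ, 1 ≤ t → |D0 (l j * t)| ≤ K * t ^ ε := by
    intro j
    set b : ℝ := l j / (2 * Real.pi) with hb
    have hb0 : 0 < b := by have := hl j; positivity
    refine ⟨(b ^ ε + b ^ (-ε)) / ε + 2 * |Real.eulerMascheroniConstant|, by positivity, ?_⟩
    intro t ht
    have ht0 : 0 < t := by linarith
    have e : l j * t / (2 * Real.pi) = b * t := by rw [hb]; ring
    unfold D0
    rw [e]
    have h1 := abs_log_le (u := b * t) (by positivity) hε0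
    rw [Real.mul_rpow hb0.le ht0.le, Real.mul_rpow hb0.le ht0.le] at h1
    have h2 : t ^ (-ε) ≤ t ^ ε := Real.rpow_le_rpow_of_exponent_le ht (by linarith)
    have h3 : (1 : ℝ) ≤ t ^ ε := Real.one_le_rpow ht hε0.le
    calc |Real.log (b * t) + 2 * Real.eulerMascheroniConstant|
        ≤ |Real.log (b * t)| + |2 * Real.eulerMascheroniConstant| := abs_add_le _ _
      _ = |Real.log (b * t)| + 2 * |Real.eulerMascheroniConstant| := by rw [abs_mul, abs_two]
      _ ≤ (b ^ ε * t ^ ε + b ^ (-ε) * t ^ ε) / ε +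
          2 * |Real.eulerMascheroniConstant| * t ^ ε := by
          refine add_le_add (h1.trans (by gcongr)) ?_
          exact le_mul_of_one_le_right (by positivity) h3
      _ = _ := by ring
  choose K hK0 hK using h
  refine ⟨∏ j, K j + 1, by have := Finset.prod_nonneg (s := Finset.univ) (fun j _ => hK0 j); linarith, ?_⟩
  intro t ht
  have ht0 : 0 < t := by linarith
  rw [Finset.abs_prod]
  calc ∏ j, |D0 (l j * t)| ≤ ∏ j, (K j * t ^ ε) :=
        Finset.prod_le_prod (fun j _ => abs_nonneg _) fun j _ => hK j t ht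
    _ = (∏ j, K j) * (t ^ ε) ^ k := by
        rw [Finset.prod_mul_distrib, Finset.prod_const, Finset.card_univ, Fintype.card_fin]
    _ ≤ (∏ j, K j + 1) * t ^ η := by
        refine mul_le_mul (by linarith) ?_ (by positivity)
          (by have := Finset.prod_nonneg (s := Finset.univ) (fun j _ => hK0 j); linarith)
        rw [← Real.rpow_natCast, ← Real.rpow_mul ht0.le]
        apply Real.rpow_le_rpow_of_exponent_le ht
        rw [hε, div_mul_eq_mul_div, div_le_iff₀ (by positivity)]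
        nlinarith

lemma gr_sq {F : ℝ → ℂ} (hF : Gr F) {ε : ℝ} (hε : 0 < ε) : ∃ C : ℝ, 0 < C ∧ ∀ T : ℝ, 1 ≤ T →
    IntegrableOn (fun t => ‖F t‖ ^ 2) (Ioc 0 T) ∧ ∫ t in Ioc 0 T, ‖F t‖ ^ 2 ≤ C * T ^ (1 + ε) := by
  obtain ⟨C, hC, h⟩ := hF.2 ε hε
  refine ⟨C, hC, fun T hT => ⟨?_, ?_⟩⟩
  · exact (memLp_two_iff_integrable_sq_norm hF.1.aestronglyMeasurable).1 (gr_memLp hF T)
  · rw [integral_eq_lintegral_of_nonneg_ae (Eventually.of_forall fun t => by positivity)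
      ((hF.1.norm.pow_const 2).aestronglyMeasurable)]
    refine ENNReal.toReal_le_of_le_ofReal (by positivity) (le_trans (le_of_eq ?_) (h T hT))
    refine lintegral_congr fun t => ?_
    rw [ENNReal.ofReal_pow (norm_nonneg _), ofReal_norm]

/-- the cell containing `T` -/
lemma exists_cell {θ : ℝ} {n : ℕ} {T : ℝ} (h1 : 2 ^ n ≤ T) (h2 : T ≤ 2 * 2 ^ n) :
    ∃ i < NN θ n, gp θ n i ≤ T ∧ T ≤ gp θ n (i + 1) := by
  classical
  have h0 : (0 : ℝ) < NN θ n := by exact_mod_cast NN_pos θ n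
  have hN : ∃ j, T ≤ gp θ n (j + 1) := by
    refine ⟨NN θ n - 1, ?_⟩
    rw [Nat.sub_add_cancel (NN_pos θ n)]
    unfold gp
    rw [div_self h0.ne']
    linarith
  refine ⟨Nat.find hN, ?_, ?_, Nat.find_spec hN⟩
  · have : Nat.find hN ≤ NN θ n - 1 := by
      apply Nat.find_min'
      rw [Nat.sub_add_cancel (NN_pos θ n)]
      unfold gp
      rw [div_self h0.ne']
      linarith
    have := NN_pos θ n
    omega
  · rcases Nat.eq_zero_or_pos (Nat.find hN) with h | h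
    · rw [h]
      unfold gp
      simpa using h1
    · have h3 := Nat.find_min hN (m := Nat.find hN - 1) (by omega)
      rw [Nat.sub_add_cancel h] at h3
      linarith

lemma gp_len {θ : ℝ} (n j : ℕ) :
    gp θ n (j + 1) - gp θ n j ≤ ((2 : ℝ) ^ n) ^ (1 - θ) := by
  have h0 : (0 : ℝ) < NN θ n := by exact_mod_cast NN_pos θ n
  have h2 : (0 : ℝ) < 2 ^ n := by positivity
  have e : gp θ n (j + 1) - gp θ n j = 2 ^ n / NN θ n := by
    unfold gp
    push_cast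
    field_simp
    ring
  rw [e, Real.rpow_sub h2, Real.rpow_one]
  refine div_le_div_of_nonneg_left h2.le (by positivity) ?_
  exact Nat.le_ceil _

section

variable {k : ℕ} {F : ℝ → ℂ} {l : Fin k → ℝ}

lemma ii (hint : S_INT) (hF : Gr F) (hl : ∀ j, 0 < l j) {a b : ℝ} (ha : 0 ≤ a) (hb : 0 ≤ b) :
    IntervalIntegrable (fun t => F t * ((dif l t : ℝ) : ℂ)) volume a b := by
  rw [intervalIntegrable_iff]
  obtain ⟨h1, h2⟩ := hint k F hF l hl (max a b)
  have h3 : IntegrableOn (fun t => F t * ((dif l t : ℝ) : ℂ)) (Ioc 0 (max a b)) := by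
    refine (h1.sub h2).congr_fun_ae (Eventually.of_forall fun t => ?_)
    simp only [Pi.sub_apply]
    rw [dif, Complex.ofReal_sub]
    ring
  refine h3.mono_set ?_
  rw [uIoc]
  exact Ioc_subset_Ioc_left (le_min ha hb)

lemma ion (hint : S_INT) (hF : Gr F) (hl : ∀ j, 0 < l j) {a b : ℝ} (ha : 0 ≤ a) (hab : a ≤ b) :
    IntegrableOn (fun t => F t * ((dif l t : ℝ) : ℂ)) (Ioc a b) := by
  have h := ii hint hF hl ha (ha.trans hab)
  rwa [intervalIntegrable_iff_integrableOn_Ioc_of_le hab] at h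

lemma ion_re (hint : S_INT) (hF : Gr F) (hl : ∀ j, 0 < l j) {a b : ℝ} (ha : 0 ≤ a) (hab : a ≤ b) :
    IntegrableOn (fun t => ‖F t‖ * dif l t) (Ioc a b) := by
  have h := (ion hint (gr_norm hF) hl ha hab).re
  refine h.congr (Eventually.of_forall fun t => ?_)
  simp [← Complex.ofReal_mul]

lemma JJ_re {a b : ℝ} : ∫ t in Ioc a b, ‖F t‖ * dif l t ≤
    JJ (fun t => ((‖F t‖ : ℝ) : ℂ)) l a b := by
  unfold JJ
  rw [integral_Icc_eq_integral_Ioc]
  have : ∀ t, ((‖F t‖ : ℝ) : ℂ) * ((dif l t : ℝ) : ℂ) = ((‖F t‖ * dif l t : ℝ) : ℂ) := fun t => by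
    push_cast
    rfl
  simp only [this]
  rw [integral_complex_ofReal, Complex.norm_real]
  exact le_abs_self _

lemma seg (hint : S_INT) (hF : Gr F) {A θ ρ δ : ℝ} (hδρ : δ < ρ) (hδθ : 2 * δ < θ)
    (hl : ∀ j, 0 < l j) (hl' : ∀ j, A⁻¹ ≤ l j ∧ l j ≤ A) :
    ∃ C : ℝ, 0 ≤ C ∧ ∀ n : ℕ, l ∉ Bad k F A 1 θ ρ n → ∀ T : ℝ, 2 ^ n ≤ T → T ≤ 2 * 2 ^ n →
      ‖∫ t in ((2 : ℝ) ^ n)..T, F t * ((dif l t : ℝ) : ℂ)‖ ≤ C * ((2 : ℝ) ^ n) ^ (1 - δ) := by
  set η : ℝ := (θ / 2 - δ) / 2 with hη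
  have hη0 : 0 < η := by rw [hη]; linarith
  obtain ⟨M, hM, hP⟩ := D0_prod_le hl hη0
  obtain ⟨C₁, hC₁, hsq⟩ := gr_sq hF hη0
  refine ⟨2 + M * 2 ^ η * (C₁ * 2 ^ (1 + η) + 1), by positivity, ?_⟩
  intro n hn T hT1 hT2
  obtain ⟨i, hi, hia, hib⟩ := exists_cell (θ := θ) hT1 hT2
  set X : ℝ := 2 ^ n with hX
  have hX1 : 1 ≤ X := one_le_pow₀ (by norm_num)
  have hX0 : 0 < X := by linarith
  set a : ℝ := gp θ n i with ha
  set b : ℝ := gp θ n (i + 1) with hb
  have hXa : X ≤ a := le_gp θ n i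
  have hb2 : b ≤ 2 * X := gp_le hi
  have hab : a ≤ b := hia.trans hib
  have ha0 : 0 ≤ a := by linarith
  -- not bad
  have hnb : JJ F l X a ≤ X ^ (1 - ρ) ∧
      JJ (fun t => ((‖F t‖ : ℝ) : ℂ)) l a b ≤ X ^ (1 - ρ) := by
    constructor
    · by_contra hcon
      exact hn ⟨hl', i, hi, Or.inl (by rw [one_mul]; exact not_le.1 hcon)⟩
    · by_contra hcon
      exact hn ⟨hl', i, hi, Or.inr (by rw [one_mul]; exact not_le.1 hcon)⟩
  have hρδ : X ^ (1 - ρ) ≤ X ^ (1 - δ) :=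
    Real.rpow_le_rpow_of_exponent_le hX1 (by linarith)
  -- the first part
  have h1 : ‖∫ t in X..a, F t * ((dif l t : ℝ) : ℂ)‖ ≤ X ^ (1 - δ) := by
    rw [intervalIntegral.integral_of_le hXa, ← integral_Icc_eq_integral_Ioc]
    exact hnb.1.trans hρδ
  -- the second part
  have hg := ion hint hF hl ha0 hab
  have hgre := ion_re hint hF hl ha0 hab
  obtain ⟨hsqi, hsqb⟩ := hsq (2 * X) (by linarith)
  have hsub : Ioc a b ⊆ Ioc 0 (2 * X) := fun t ht => ⟨by linarith [ht.1], ht.2.trans hb2⟩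
  have hsqi' : IntegrableOn (fun t => ‖F t‖ ^ 2) (Ioc a b) := hsqi.mono_set hsub
  have hsqb' : ∫ t in Ioc a b, ‖F t‖ ^ 2 ≤ C₁ * (2 * X) ^ (1 + η) :=
    (setIntegral_mono_set hsqi (Eventually.of_forall fun t => by positivity)
      hsub.eventuallyLE).trans hsqb
  set B : ℝ := M * (2 * X) ^ η with hB
  have hB0 : 0 < B := by positivity
  set μ : ℝ := X ^ (-(θ / 2)) with hμ
  have hμ0 : 0 < μ := by positivity
  have hpt : ∀ t ∈ Ioc a b, ‖F t * ((dif l t : ℝ) : ℂ)‖ ≤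
      ‖F t‖ * dif l t + B * (μ * ‖F t‖ ^ 2 + μ⁻¹) := by
    intro t ht
    have ht1 : 1 ≤ t := by linarith [ht.1]
    have h3 := hP t ht1
    have h4 : M * t ^ η ≤ B := by
      rw [hB]
      have : t ^ η ≤ (2 * X) ^ η :=
        Real.rpow_le_rpow (by linarith) (ht.2.trans hb2) hη0.le
      exact mul_le_mul_of_nonneg_left this hM.le
    have h5 : |dif l t| ≤ dif l t + 2 * B := by
      have h6 : 0 ≤ ∏ j, ff (l j * t) := Finset.prod_nonneg fun j _ => ff_nonneg _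
      have h7 : |dif l t| ≤ ∏ j, ff (l j * t) + |∏ j, D0 (l j * t)| := by
        rw [dif]
        refine (abs_sub _ _).trans ?_
        rw [abs_of_nonneg h6]
      have h8 := le_abs_self (∏ j, D0 (l j * t))
      have h9 : ∏ j, ff (l j * t) = dif l t + ∏ j, D0 (l j * t) := by rw [dif]; ring
      linarith
    rw [norm_mul, Complex.norm_real, Real.norm_eq_abs]
    have h10 : 2 * ‖F t‖ ≤ μ * ‖F t‖ ^ 2 + μ⁻¹ := by
      have h11 : 0 ≤ μ * (‖F t‖ - μ⁻¹) ^ 2 := by positivity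
      have h12 : μ * (‖F t‖ - μ⁻¹) ^ 2 = μ * ‖F t‖ ^ 2 - 2 * ‖F t‖ + μ⁻¹ := by
        field_simp
        ring
      linarith
    calc ‖F t‖ * |dif l t| ≤ ‖F t‖ * (dif l t + 2 * B) :=
          mul_le_mul_of_nonneg_left h5 (norm_nonneg _)
      _ = ‖F t‖ * dif l t + B * (2 * ‖F t‖) := by ring
      _ ≤ _ := by gcongr
  have hI4 : IntegrableOn (fun _ : ℝ => μ⁻¹) (Ioc a b) := integrableOn_const (by simp) (by simp)
  have hI3 : IntegrableOn (fun t => μ * ‖F t‖ ^ 2) (Ioc a b) := hsqi'.const_mul _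
  have hI2 : IntegrableOn (fun t => B * (μ * ‖F t‖ ^ 2 + μ⁻¹)) (Ioc a b) :=
    (hI3.add hI4).const_mul _
  have hri : IntegrableOn (fun t => ‖F t‖ * dif l t + B * (μ * ‖F t‖ ^ 2 + μ⁻¹)) (Ioc a b) :=
    hgre.add hI2
  have h2 : ‖∫ t in a..T, F t * ((dif l t : ℝ) : ℂ)‖ ≤
      X ^ (1 - δ) + M * 2 ^ η * (C₁ * 2 ^ (1 + η) + 1) * X ^ (1 - δ) := by
    rw [intervalIntegral.integral_of_le hia]
    refine (norm_integral_le_integral_norm _).trans ?_
    refine (setIntegral_mono_set hg.norm (Eventually.of_forall fun t => norm_nonneg _)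
      (Ioc_subset_Ioc_right hib).eventuallyLE).trans ?_
    refine (setIntegral_mono_on hg.norm hri measurableSet_Ioc hpt).trans ?_
    rw [integral_add hgre hI2]
    refine add_le_add (JJ_re.trans (hnb.2.trans hρδ)) ?_
    rw [integral_const_mul, integral_add hI3 hI4,
      integral_const_mul, setIntegral_const, smul_eq_mul]
    have h13 : volume.real (Ioc a b) ≤ X ^ (1 - θ) := by
      rw [Real.volume_real_Ioc_of_le hab]
      exact gp_len n i
    calc B * (μ * (∫ t in Ioc a b, ‖F t‖ ^ 2) + volume.real (Ioc a b) * μ⁻¹) ≤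
        B * (μ * (C₁ * (2 * X) ^ (1 + η)) + X ^ (1 - θ) * μ⁻¹) := by gcongr
      _ ≤ M * 2 ^ η * (C₁ * 2 ^ (1 + η) + 1) * X ^ (1 - δ) := by
        have e1 : (2 * X) ^ (1 + η) = 2 ^ (1 + η) * X ^ (1 + η) := Real.mul_rpow (by norm_num) hX0.le
        have e2 : (2 * X) ^ η = 2 ^ η * X ^ η := Real.mul_rpow (by norm_num) hX0.le
        have e3 : μ⁻¹ = X ^ (θ / 2) := by rw [hμ, Real.rpow_neg hX0.le, inv_inv]
        rw [hB, e1, e2, e3, hμ]
        have e4 : X ^ η * (X ^ (-(θ / 2)) * X ^ (1 + η)) = X ^ (1 - δ) := by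
          rw [← Real.rpow_add hX0, ← Real.rpow_add hX0]
          congr 1
          rw [hη]
          ring
        have e5 : X ^ η * (X ^ (1 - θ) * X ^ (θ / 2)) ≤ X ^ (1 - δ) := by
          rw [← Real.rpow_add hX0, ← Real.rpow_add hX0]
          apply Real.rpow_le_rpow_of_exponent_le hX1
          rw [hη]
          linarith
        calc M * (2 ^ η * X ^ η) * (X ^ (-(θ / 2)) * (C₁ * (2 ^ (1 + η) * X ^ (1 + η))) +
            X ^ (1 - θ) * X ^ (θ / 2)) = M * 2 ^ η * (C₁ * 2 ^ (1 + η) *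
              (X ^ η * (X ^ (-(θ / 2)) * X ^ (1 + η))) + X ^ η * (X ^ (1 - θ) * X ^ (θ / 2))) := by
              ring
          _ ≤ M * 2 ^ η * (C₁ * 2 ^ (1 + η) * X ^ (1 - δ) + X ^ (1 - δ)) := by
              rw [e4]
              gcongr
          _ = _ := by ring
  have h0X : 0 ≤ X := hX0.le
  rw [← intervalIntegral.integral_add_adjacent_intervals (ii hint hF hl h0X ha0)
    (ii hint hF hl ha0 (ha0.trans hia))]
  refine (norm_add_le _ _).trans ((add_le_add h1 h2).trans (le_of_eq ?_))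
  ring

end

theorem t_DET' (hint : S_INT) : S_DET := by
  intro k F A θ ρ δ hF hA hθ hθ1 hρ hρ1 hδ hδρ hδθ l hl' hbad
  have hl : ∀ j, 0 < l j := fun j => lt_of_lt_of_le (by positivity) (hl' j).1
  obtain ⟨C, hC, hseg⟩ := seg hint hF hδρ hδθ hl hl'
  obtain ⟨n0, hn0⟩ := eventually_atTop.1 hbad
  set g : ℝ → ℂ := fun t => F t * ((dif l t : ℝ) : ℂ) with hg
  set S : ℝ → ℂ := fun T => ∫ t in (0 : ℝ)..T, g t with hS
  have h2δ : (1 : ℝ) < 2 ^ (1 - δ) := Real.one_lt_rpow (by norm_num) (by linarith)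
  set C₂ : ℝ := C / (2 ^ (1 - δ) - 1) with hC₂
  have hC₂0 : 0 ≤ C₂ := div_nonneg hC (by linarith)
  have hC₂e : C₂ * (2 ^ (1 - δ) - 1) = C := div_mul_cancel₀ _ (by linarith)
  have hadd : ∀ a b : ℝ, 0 ≤ a → 0 ≤ b → S b = S a + ∫ t in a..b, g t := by
    intro a b ha hb
    exact (intervalIntegral.integral_add_adjacent_intervals (ii hint hF hl le_rfl ha)
      (ii hint hF hl ha hb)).symm
  set a0 : ℝ := ‖S (2 ^ n0)‖ with ha0
  have hstep : ∀ m : ℕ, ‖S (2 ^ (n0 + m))‖ ≤ a0 + C₂ * ((2 : ℝ) ^ (n0 + m)) ^ (1 - δ) := by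
    intro m
    induction m with
    | zero =>
      have : 0 ≤ C₂ * ((2 : ℝ) ^ (n0 + 0)) ^ (1 - δ) := by positivity
      simpa [ha0] using this
    | succ m ih =>
      have h1 := hseg (n0 + m) (hn0 _ (by omega)) (2 ^ (n0 + m + 1))
        (pow_le_pow_right₀ (by norm_num) (by omega)) (by rw [pow_succ]; linarith)
      have h2 := hadd (2 ^ (n0 + m)) (2 ^ (n0 + m + 1)) (by positivity) (by positivity)
      rw [← add_assoc, h2]
      refine (norm_add_le _ _).trans ((add_le_add ih h1).trans (le_of_eq ?_))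
      have e1 : ((2 : ℝ) ^ (n0 + m + 1)) ^ (1 - δ) = 2 ^ (1 - δ) * ((2 : ℝ) ^ (n0 + m)) ^ (1 - δ) := by
        rw [pow_succ, mul_comm, Real.mul_rpow (by norm_num) (by positivity)]
      rw [e1]
      linear_combination (-((2 : ℝ) ^ (n0 + m)) ^ (1 - δ)) * hC₂e
  refine ⟨a0 + C₂ + C + ∫ t in Ioc 0 ((2 : ℝ) ^ n0), ‖g t‖, fun T hT => ?_⟩
  have hT0 : 0 < T := by linarith
  have hT1 : 1 ≤ T ^ (1 - δ) := Real.one_le_rpow hT (by linarith)
  have hb0 : 0 ≤ ∫ t in Ioc 0 ((2 : ℝ) ^ n0), ‖g t‖ := integral_nonneg fun t => norm_nonneg _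
  have ha00 : 0 ≤ a0 := norm_nonneg _
  have hST : ∫ t in Ioc 0 T, F t * ((dif l t : ℝ) : ℂ) = S T := by
    rw [hS]
    exact (intervalIntegral.integral_of_le hT0.le).symm
  rw [hST]
  rcases le_or_gt ((2 : ℝ) ^ n0) T with h | h
  · obtain ⟨n, h1, h2⟩ := exists_nat_pow_near hT (by norm_num : (1 : ℝ) < 2)
    have hn : n0 ≤ n := by
      by_contra hcon
      have : (2 : ℝ) ^ (n + 1) ≤ 2 ^ n0 := pow_le_pow_right₀ (by norm_num) (by omega)
      linarith
    obtain ⟨m, rfl⟩ := Nat.exists_eq_add_of_le hn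
    have h3 := hseg (n0 + m) (hn0 _ (by omega)) T h1 (by rw [pow_succ] at h2; linarith)
    rw [hadd (2 ^ (n0 + m)) T (by positivity) hT0.le]
    have h4 : ((2 : ℝ) ^ (n0 + m)) ^ (1 - δ) ≤ T ^ (1 - δ) :=
      Real.rpow_le_rpow (by positivity) h1 (by linarith)
    have h5 := hstep m
    calc ‖S (2 ^ (n0 + m)) + ∫ t in ((2 : ℝ) ^ (n0 + m))..T, g t‖ ≤
        (a0 + C₂ * ((2 : ℝ) ^ (n0 + m)) ^ (1 - δ)) + C * ((2 : ℝ) ^ (n0 + m)) ^ (1 - δ) :=
          (norm_add_le _ _).trans (add_le_add h5 h3)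
      _ ≤ (a0 * T ^ (1 - δ) + C₂ * T ^ (1 - δ)) + C * T ^ (1 - δ) := by
          gcongr
          exact le_mul_of_one_le_right ha00 hT1
      _ ≤ _ := by nlinarith
  · have h6 : ‖S T‖ ≤ ∫ t in Ioc 0 ((2 : ℝ) ^ n0), ‖g t‖ := by
      rw [hS]
      simp only
      rw [intervalIntegral.integral_of_le hT0.le]
      refine (norm_integral_le_integral_norm _).trans ?_
      exact setIntegral_mono_set (ion hint hF hl le_rfl (by positivity)).norm
        (Eventually.of_forall fun t => norm_nonneg _) (Ioc_subset_Ioc_right h.le).eventuallyLE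
    nlinarith

theorem t_DET (_hcru : S_CRU) (hint : S_INT) : S_DET := t_DET' hint

end Pool.Agent.J4H8.GD
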