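import Pool.Agent.N879.GD.Stm
import Mathlib

set_option autoImplicit false

/-! # Project GD, INT: integrability -/

namespace Pool.Agent.J4H8.GD

open MeasureTheory Set Filter Topology
open scoped ENNReal NNReal
open Pool.Agent.Y969.GP (ff)
open Pool.Agent.N879.GD

lemma gr_lt {F : ℝ → ℂ} (hF : Gr F) (T : ℝ) :
    ∫⁻ t in Ioc 0 T, ‖F t‖ₑ ^ 2 < ⊤ := by
  obtain ⟨C, hC, h⟩ := hF.2 1 one_pos
  calc ∫⁻ t in Ioc 0 T, ‖F t‖ₑ ^ 2 ≤ ∫⁻ t in Ioc 0 (max 1 T), ‖F t‖ₑ ^ 2 :=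
        lintegral_mono_set (Ioc_subset_Ioc_right (le_max_right _ _))
    _ ≤ ENNReal.ofReal (C * (max 1 T) ^ (1 + 1 : ℝ)) := h _ (le_max_left _ _)
    _ < ⊤ := ENNReal.ofReal_lt_top

lemma gr_memLp {F : ℝ → ℂ} (hF : Gr F) (T : ℝ) : MemLp F 2 (volume.restrict (Ioc 0 T)) := by
  refine ⟨hF.1.aestronglyMeasurable, ?_⟩
  rw [eLpNorm_lt_top_iff_lintegral_rpow_enorm_lt_top (by norm_num) (by norm_num)]
  have h := gr_lt hF T
  simpa using h

lemma int_of_memLp {F : ℝ → ℂ} (hF : Gr F) {T : ℝ} {g : ℝ → ℝ}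
    (hg : MemLp g 2 (volume.restrict (Ioc 0 T))) :
    IntegrableOn (fun t => F t * ((g t : ℝ) : ℂ)) (Ioc 0 T) := by
  have h1 := gr_memLp hF T
  have h2 : MemLp (fun t => ((g t : ℝ) : ℂ)) 2 (volume.restrict (Ioc 0 T)) := hg.ofReal
  exact h1.integrable_mul h2

/-- `|log u|` against a small negative power -/
lemma abs_log_le {u ε : ℝ} (hu : 0 < u) (hε : 0 < ε) : |Real.log u| ≤ (u ^ ε + u ^ (-ε)) / ε := by
  have h1 := Real.log_le_rpow_div hu.le hε
  have h2 := Real.log_le_rpow_div (inv_nonneg.2 hu.le) hε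
  rw [Real.log_inv, Real.inv_rpow hu.le, ← Real.rpow_neg hu.le] at h2
  have h3 : 0 ≤ u ^ ε / ε := by positivity
  have h4 : 0 ≤ u ^ (-ε) / ε := by positivity
  rw [abs_le, add_div]
  constructor <;> linarith

lemma D0_bound {l T ε : ℝ} (hl : 0 < l) (hε : 0 < ε) :
    ∃ K : ℝ, 0 ≤ K ∧ ∀ t ∈ Ioc 0 T, |D0 (l * t)| ≤ K * t ^ (-ε) := by
  set γ := Real.eulerMascheroniConstant with hγ
  set b : ℝ := l / (2 * Real.pi) with hb
  have hb0 : 0 < b := by positivity
  refine ⟨(((b * |T|) ^ (2 * ε) + 1) / ε + 2 * |γ| * (b * |T|) ^ ε) * b ^ (-ε), by positivity, ?_⟩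
  intro t ht
  have ht0 : 0 < t := ht.1
  have hu0 : 0 < b * t := by positivity
  have hU : b * t ≤ b * |T| := mul_le_mul_of_nonneg_left (ht.2.trans (le_abs_self T)) hb0.le
  have e : l * t / (2 * Real.pi) = b * t := by rw [hb]; ring
  unfold D0
  rw [e]
  have h1 := abs_log_le hu0 hε
  have h2 : (b * t) ^ ε ≤ (b * |T|) ^ (2 * ε) * (b * t) ^ (-ε) := by
    have : (b * t) ^ ε = (b * t) ^ (2 * ε) * (b * t) ^ (-ε) := by
      rw [← Real.rpow_add hu0]; congr 1; ring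
    rw [this]
    exact mul_le_mul_of_nonneg_right (Real.rpow_le_rpow hu0.le hU (by positivity)) (by positivity)
  have h3 : (1 : ℝ) ≤ (b * |T|) ^ ε * (b * t) ^ (-ε) := by
    have : (1 : ℝ) = (b * t) ^ ε * (b * t) ^ (-ε) := by
      rw [← Real.rpow_add hu0]; simp
    rw [this]
    exact mul_le_mul_of_nonneg_right (Real.rpow_le_rpow hu0.le hU hε.le) (by positivity)
  have h4 : (b * t) ^ (-ε) = b ^ (-ε) * t ^ (-ε) := Real.mul_rpow hb0.le ht0.le
  calc |Real.log (b * t) + 2 * γ| ≤ |Real.log (b * t)| + |2 * γ| := abs_add_le _ _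
    _ = |Real.log (b * t)| + 2 * |γ| := by rw [abs_mul, abs_two]
    _ ≤ ((b * |T|) ^ (2 * ε) * (b * t) ^ (-ε) + (b * t) ^ (-ε)) / ε +
        2 * |γ| * ((b * |T|) ^ ε * (b * t) ^ (-ε)) := by
        refine add_le_add (h1.trans (by gcongr)) ?_
        exact le_mul_of_one_le_right (by positivity) h3
    _ = (((b * |T|) ^ (2 * ε) + 1) / ε + 2 * |γ| * (b * |T|) ^ ε) * (b * t) ^ (-ε) := by ring
    _ = _ := by rw [h4]; ring

lemma D0_meas : Measurable D0 := by
  unfold D0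
  fun_prop

lemma prod_D0_memLp {k : ℕ} {l : Fin k → ℝ} (hl : ∀ j, 0 < l j) (T : ℝ) :
    MemLp (fun t => ∏ j, D0 (l j * t)) 2 (volume.restrict (Ioc 0 T)) := by
  have hε : (0 : ℝ) < 1 / (4 * ((k : ℝ) + 1)) := by positivity
  have h := fun j => D0_bound (T := T) (hl j) hε
  choose K hK0 hK using h
  have hm : Measurable (fun t => ∏ j, D0 (l j * t)) :=
    Finset.measurable_prod _ fun j _ => D0_meas.comp (measurable_const_mul _)
  have hb : ∀ t ∈ Ioc 0 T, |∏ j, D0 (l j * t)| ≤ (∏ j, K j) * (1 + t ^ (-(1 / 4 : ℝ))) := by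
    intro t ht
    have ht0 : 0 < t := ht.1
    rw [Finset.abs_prod]
    calc ∏ j, |D0 (l j * t)| ≤ ∏ j, (K j * t ^ (-(1 / (4 * ((k : ℝ) + 1))))) :=
          Finset.prod_le_prod (fun j _ => abs_nonneg _) fun j _ => hK j t ht
      _ = (∏ j, K j) * (t ^ (-(1 / (4 * ((k : ℝ) + 1))))) ^ k := by
          rw [Finset.prod_mul_distrib, Finset.prod_const, Finset.card_univ, Fintype.card_fin]
      _ ≤ (∏ j, K j) * (1 + t ^ (-(1 / 4 : ℝ))) := by
          refine mul_le_mul_of_nonneg_left ?_ (Finset.prod_nonneg fun j _ => hK0 j)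
          rw [← Real.rpow_natCast, ← Real.rpow_mul ht0.le]
          rcases le_or_gt 1 t with h1 | h1
          · have : t ^ (-(1 / (4 * ((k : ℝ) + 1))) * (k : ℝ)) ≤ 1 :=
              Real.rpow_le_one_of_one_le_of_nonpos h1 (by
                have : 0 ≤ 1 / (4 * ((k : ℝ) + 1)) * (k : ℝ) := by positivity
                linarith)
            have h5 : 0 ≤ t ^ (-(1 / 4 : ℝ)) := by positivity
            linarith
          · have : t ^ (-(1 / (4 * ((k : ℝ) + 1))) * (k : ℝ)) ≤ t ^ (-(1 / 4 : ℝ)) := by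
              apply Real.rpow_le_rpow_of_exponent_ge ht0 h1.le
              rw [neg_mul, neg_le_neg_iff, div_mul_eq_mul_div, one_mul, div_le_div_iff₀ (by positivity) (by norm_num)]
              linarith
            linarith
  rw [memLp_two_iff_integrable_sq hm.aestronglyMeasurable]
  have hi : IntegrableOn (fun t : ℝ => (∏ j, K j) ^ 2 * (2 + 2 * t ^ (-(1 / 2 : ℝ)))) (Ioc 0 T) := by
    rcases le_or_gt T 0 with hT | hT
    · rw [Ioc_eq_empty (not_lt.2 hT)]
      exact integrableOn_empty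
    · refine Integrable.const_mul ?_ _
      refine Integrable.add ?_ ?_
      · exact integrableOn_const (by simp) (by simp)
      · refine Integrable.const_mul ?_ _
        have := intervalIntegral.intervalIntegrable_rpow' (a := 0) (b := T) (r := -(1 / 2 : ℝ)) (by norm_num)
        rwa [intervalIntegrable_iff_integrableOn_Ioc_of_le hT.le] at this
  refine Integrable.mono' hi (hm.pow_const 2).aestronglyMeasurable ?_
  refine (ae_restrict_iff' measurableSet_Ioc).2 (Eventually.of_forall fun t ht => ?_)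
  have ht0 : 0 < t := ht.1
  have h1 := hb t ht
  rw [Real.norm_eq_abs, abs_pow]
  have h6 : (t ^ (-(1 / 4 : ℝ))) ^ 2 = t ^ (-(1 / 2 : ℝ)) := by
    rw [← Real.rpow_natCast, ← Real.rpow_mul ht0.le]
    norm_num
  calc |∏ j, D0 (l j * t)| ^ 2 ≤ ((∏ j, K j) * (1 + t ^ (-(1 / 4 : ℝ)))) ^ 2 :=
        pow_le_pow_left₀ (abs_nonneg _) h1 2
    _ = (∏ j, K j) ^ 2 * (1 + t ^ (-(1 / 4 : ℝ))) ^ 2 := by ring
    _ ≤ (∏ j, K j) ^ 2 * (2 + 2 * t ^ (-(1 / 2 : ℝ))) := by
        refine mul_le_mul_of_nonneg_left ?_ (sq_nonneg _)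
        rw [← h6]
        nlinarith [sq_nonneg (1 - t ^ (-(1 / 4 : ℝ)))]

lemma prod_ff_memLp (hc : Continuous ff) {k : ℕ} (l : Fin k → ℝ) (T : ℝ) :
    MemLp (fun t => ∏ j, ff (l j * t)) 2 (volume.restrict (Ioc 0 T)) := by
  have hc' : Continuous (fun t => ∏ j, ff (l j * t)) :=
    continuous_finsetProd _ fun j _ => hc.comp (continuous_const_mul _)
  obtain ⟨M, hM⟩ := (isCompact_Icc (a := (0 : ℝ)) (b := T)).exists_bound_of_continuousOn hc'.continuousOn
  refine MemLp.of_bound hc'.aestronglyMeasurable M ?_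
  exact (ae_restrict_iff' measurableSet_Ioc).2 (Eventually.of_forall fun t ht => hM t (Ioc_subset_Icc_self ht))

theorem t_INT (hcru : S_CRU) : S_INT := by
  obtain ⟨C, N, hC, hc, -, -⟩ := hcru
  intro k F hF l hl T
  exact ⟨int_of_memLp hF (prod_ff_memLp hc l T), int_of_memLp hF (prod_D0_memLp hl T)⟩

end Pool.Agent.J4H8.GD
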