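import Pool.Agent.J4H8.GD.Int
import Mathlib

set_option autoImplicit false

/-! # Project GD, MB: the measure of the bad set -/

namespace Pool.Agent.J4H8.GD

open MeasureTheory Set Filter Topology
open scoped ENNReal NNReal
open Pool.Agent.Y969.GP (ff)
open Pool.Agent.N879.GD

lemma dif_meas (hc : Continuous ff) {k : ℕ} :
    Measurable (fun p : (Fin k → ℝ) × ℝ => dif p.1 p.2) := by
  unfold dif
  refine Measurable.sub ?_ ?_
  · refine Finset.measurable_prod _ fun j _ => hc.measurable.comp ?_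
    exact ((measurable_pi_apply j).comp measurable_fst).mul measurable_snd
  · refine Finset.measurable_prod _ fun j _ => D0_meas.comp ?_
    exact ((measurable_pi_apply j).comp measurable_fst).mul measurable_snd

lemma JJ_meas (hc : Continuous ff) {k : ℕ} {G : ℝ → ℂ} (hG : Measurable G) (S : Set ℝ) :
    Measurable (fun l : Fin k → ℝ => ∫ t in S, G t * ((dif l t : ℝ) : ℂ)) := by
  have h : StronglyMeasurable (Function.uncurry (fun (l : Fin k → ℝ) (t : ℝ) =>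
      G t * ((dif l t : ℝ) : ℂ))) := by
    refine Measurable.stronglyMeasurable ?_
    exact (hG.comp measurable_snd).mul (Complex.measurable_ofReal.comp (dif_meas hc))
  exact (h.integral_prod_right (ν := volume.restrict S)).measurable

/-- one cell -/
lemma cell {k : ℕ} (hc : Continuous ff) {K : ℝ≥0∞} {A T a b x : ℝ} {F G : ℝ → ℂ}
    (hG : Measurable G) (hGF : ∀ t, ‖G t‖ₑ ≤ ‖F t‖ₑ) (hx : 0 < x) (ha : T ≤ a) (hb : b ≤ 2 * T)
    (h : ∀ F : ℝ → ℂ, Measurable F →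
      ∫⁻ l in Icc (fun _ : Fin k => A⁻¹) (fun _ => A),
        ‖∫ t in Icc T (2 * T), F t * ((dif l t : ℝ) : ℂ)‖ₑ ^ 2 ≤
      K * ∫⁻ t in Icc T (2 * T), ‖F t‖ₑ ^ 2) :
    volume {l : Fin k → ℝ | (∀ j, A⁻¹ ≤ l j ∧ l j ≤ A) ∧ x < JJ G l a b} ≤
      K * (∫⁻ t in Icc T (2 * T), ‖F t‖ₑ ^ 2) / ENNReal.ofReal (x ^ 2) := by
  have hG' : Measurable ((Icc a b).indicator G) := hG.indicator measurableSet_Icc
  have e1 : ∀ l : Fin k → ℝ, (∫ t in Icc T (2 * T), (Icc a b).indicator G t * ((dif l t : ℝ) : ℂ)) =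
      ∫ t in Icc a b, G t * ((dif l t : ℝ) : ℂ) := by
    intro l
    have e2 : ∀ t, (Icc a b).indicator G t * ((dif l t : ℝ) : ℂ) =
        (Icc a b).indicator (fun t => G t * ((dif l t : ℝ) : ℂ)) t := by
      intro t
      by_cases ht : t ∈ Icc a b
      · rw [indicator_of_mem ht, indicator_of_mem ht]
      · rw [indicator_of_notMem ht, indicator_of_notMem ht, zero_mul]
    simp_rw [e2]
    rw [setIntegral_indicator measurableSet_Icc, inter_eq_right.2 (Icc_subset_Icc ha hb)]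
  have h1 := h _ hG'
  simp only [e1] at h1
  have h2 : ∫⁻ t in Icc T (2 * T), ‖(Icc a b).indicator G t‖ₑ ^ 2 ≤
      ∫⁻ t in Icc T (2 * T), ‖F t‖ₑ ^ 2 := by
    refine lintegral_mono fun t => ?_
    refine pow_le_pow_left₀ (zero_le) (le_trans ?_ (hGF t)) 2
    by_cases ht : t ∈ Icc a b
    · rw [indicator_of_mem ht]
    · rw [indicator_of_notMem ht]; simp
  set f : (Fin k → ℝ) → ℝ≥0∞ := fun l => ‖∫ t in Icc a b, G t * ((dif l t : ℝ) : ℂ)‖ₑ ^ 2 with hf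
  have hfm : Measurable f := (JJ_meas hc hG (Icc a b)).enorm.pow_const 2
  have hx2 : 0 < x ^ 2 := by positivity
  have h3 : volume {l : Fin k → ℝ | (∀ j, A⁻¹ ≤ l j ∧ l j ≤ A) ∧ x < JJ G l a b} ≤
      (volume.restrict (Icc (fun _ : Fin k => A⁻¹) (fun _ => A)))
        {l | ENNReal.ofReal (x ^ 2) ≤ f l} := by
    refine le_trans (measure_mono ?_) (Measure.le_restrict_apply _ _)
    rintro l ⟨hl, hl2⟩
    refine ⟨?_, fun j => (hl j).1, fun j => (hl j).2⟩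
    change ENNReal.ofReal (x ^ 2) ≤ f l
    rw [hf]
    change ENNReal.ofReal (x ^ 2) ≤ ‖∫ t in Icc a b, G t * ((dif l t : ℝ) : ℂ)‖ₑ ^ 2
    rw [← ofReal_norm, ← ENNReal.ofReal_pow (norm_nonneg _)]
    exact ENNReal.ofReal_le_ofReal (pow_le_pow_left₀ hx.le (le_of_lt hl2) 2)
  refine h3.trans ((meas_ge_le_lintegral_div hfm.aemeasurable ?_ ENNReal.ofReal_ne_top).trans ?_)
  · exact (ENNReal.ofReal_pos.2 hx2).ne'
  · exact ENNReal.div_le_div_right (h1.trans (mul_le_mul_right h2 K)) _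

lemma NN_pos (θ : ℝ) (n : ℕ) : 0 < NN θ n := by
  unfold NN
  exact Nat.ceil_pos.2 (by positivity)

lemma NN_le {θ : ℝ} (hθ : 0 < θ) (n : ℕ) : (NN θ n : ℝ) ≤ 2 * ((2 : ℝ) ^ n) ^ θ := by
  have h1 : (1 : ℝ) ≤ ((2 : ℝ) ^ n) ^ θ := Real.one_le_rpow (one_le_pow₀ (by norm_num)) hθ.le
  have h2 := (Nat.ceil_lt_add_one (a := ((2 : ℝ) ^ n) ^ θ) (by positivity)).le
  unfold NN
  linarith

lemma le_gp (θ : ℝ) (n j : ℕ) : (2 : ℝ) ^ n ≤ gp θ n j := by
  unfold gp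
  have : (0 : ℝ) ≤ (j : ℝ) / NN θ n := by positivity
  have h2 : (0 : ℝ) < 2 ^ n := by positivity
  nlinarith

lemma gp_le {θ : ℝ} {n j : ℕ} (hj : j ≤ NN θ n) : gp θ n j ≤ 2 * 2 ^ n := by
  unfold gp
  have h0 : (0 : ℝ) < NN θ n := by exact_mod_cast NN_pos θ n
  have : (j : ℝ) / NN θ n ≤ 1 := by
    rw [div_le_one h0]
    exact_mod_cast hj
  have h2 : (0 : ℝ) < 2 ^ n := by positivity
  nlinarith

theorem t_MB (hcru : S_CRU) : S_MB := by
  obtain ⟨-, -, -, hc, -, -⟩ := hcru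
  intro δ θ ρ κ hδ hθ hθ1 hρ hρ1 hD hsum k F hF A c hA hc0
  obtain ⟨C, T₀, hC, hT₀, hD⟩ := hD k A hA
  set ε : ℝ := 2 * δ - θ - 2 * ρ - κ with hε
  have hε0 : 0 < ε := by linarith
  obtain ⟨M, hM, hM'⟩ := hF.2 ε hε0
  refine ⟨4 * C * M * 2 ^ (1 + ε) / c ^ 2, by positivity, ?_⟩
  have hlim : Tendsto (fun n : ℕ => (2 : ℝ) ^ n) atTop atTop :=
    tendsto_pow_atTop_atTop_of_one_lt (by norm_num)
  filter_upwards [hlim.eventually_ge_atTop T₀] with n hn
  set T : ℝ := 2 ^ n with hT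
  have hT1 : 1 ≤ T := one_le_pow₀ (by norm_num)
  have hT0 : 0 < T := by linarith
  have hx : 0 < c * T ^ (1 - ρ) := by positivity
  set E : ℝ≥0∞ := ∫⁻ t in Icc T (2 * T), ‖F t‖ₑ ^ 2 with hE
  have hE' : E ≤ ENNReal.ofReal (M * (2 * T) ^ (1 + ε)) := by
    refine le_trans (lintegral_mono_set ?_) (hM' (2 * T) (by linarith))
    intro t ht
    exact ⟨by linarith [ht.1], ht.2⟩
  set K : ℝ≥0∞ := ENNReal.ofReal (C * T ^ (1 - 2 * δ)) with hK
  set Q : ℝ≥0∞ := K * E / ENNReal.ofReal ((c * T ^ (1 - ρ)) ^ 2) with hQ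
  have hcell := fun (a b : ℝ) (ha : T ≤ a) (hb : b ≤ 2 * T) (G : ℝ → ℂ) (hG : Measurable G)
    (hGF : ∀ t, ‖G t‖ₑ ≤ ‖F t‖ₑ) =>
    cell (k := k) (F := F) (G := G) (A := A) hc hG hGF hx ha hb (K := K) (fun F hF => hD T F hn hF)
  have hsub : Bad k F A c θ ρ n ⊆ ⋃ i ∈ Finset.range (NN θ n),
      ({l : Fin k → ℝ | (∀ j, A⁻¹ ≤ l j ∧ l j ≤ A) ∧ c * T ^ (1 - ρ) < JJ F l T (gp θ n i)} ∪
       {l : Fin k → ℝ | (∀ j, A⁻¹ ≤ l j ∧ l j ≤ A) ∧ c * T ^ (1 - ρ) <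
          JJ (fun t => ((‖F t‖ : ℝ) : ℂ)) l (gp θ n i) (gp θ n (i + 1))}) := by
    rintro l ⟨hl, i, hi, h⟩
    refine mem_iUnion₂.2 ⟨i, Finset.mem_range.2 hi, ?_⟩
    rcases h with h | h
    · exact Or.inl ⟨hl, h⟩
    · exact Or.inr ⟨hl, h⟩
  have hvol : volume (Bad k F A c θ ρ n) ≤ ∑ i ∈ Finset.range (NN θ n), (Q + Q) := by
    refine (measure_mono hsub).trans ((measure_biUnion_finset_le _ _).trans ?_)
    refine Finset.sum_le_sum fun i hi => ?_
    have hi' := Finset.mem_range.1 hi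
    refine (measure_union_le _ _).trans (add_le_add ?_ ?_)
    · exact hcell T (gp θ n i) le_rfl (gp_le hi'.le) F hF.1 (fun t => le_rfl)
    · refine hcell (gp θ n i) (gp θ n (i + 1)) (le_gp θ n i) (gp_le hi') _ ?_ (fun t => ?_)
      · exact Complex.measurable_ofReal.comp hF.1.norm
      · rw [← ofReal_norm, ← ofReal_norm, Complex.norm_real, norm_norm]
  refine hvol.trans ?_
  rw [Finset.sum_const, Finset.card_range, nsmul_eq_mul]
  have hQ' : Q ≤ ENNReal.ofReal (C * T ^ (1 - 2 * δ) * (M * (2 * T) ^ (1 + ε)) /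
      (c * T ^ (1 - ρ)) ^ 2) := by
    rw [hQ, ENNReal.ofReal_div_of_pos (by positivity), ENNReal.ofReal_mul (by positivity)]
    exact ENNReal.div_le_div_right (mul_le_mul_right hE' K) _
  set q : ℝ := C * T ^ (1 - 2 * δ) * (M * (2 * T) ^ (1 + ε)) / (c * T ^ (1 - ρ)) ^ 2 with hq
  have hq0 : 0 ≤ q := by positivity
  calc (NN θ n : ℝ≥0∞) * (Q + Q) ≤ ENNReal.ofReal (NN θ n) * (ENNReal.ofReal q + ENNReal.ofReal q) := by
        rw [ENNReal.ofReal_natCast]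
        gcongr
    _ = ENNReal.ofReal (NN θ n * (q + q)) := by
        rw [← ENNReal.ofReal_add hq0 hq0, ← ENNReal.ofReal_mul (by positivity)]
    _ ≤ _ := by
        refine ENNReal.ofReal_le_ofReal ?_
        have h1 : (NN θ n : ℝ) * (q + q) ≤ (2 * T ^ θ) * (q + q) :=
          mul_le_mul_of_nonneg_right (NN_le hθ n) (by linarith)
        refine h1.trans (le_of_eq ?_)
        have e1 : (c * T ^ (1 - ρ)) ^ 2 = c ^ 2 * T ^ (2 - 2 * ρ) := by
          rw [mul_pow, ← Real.rpow_natCast (T ^ (1 - ρ)), ← Real.rpow_mul hT0.le]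
          congr 2
          push_cast
          ring
        have e2 : (2 * T) ^ (1 + ε) = 2 ^ (1 + ε) * T ^ (1 + ε) := Real.mul_rpow (by norm_num) hT0.le
        have e3 : T ^ (-κ) = T ^ θ * T ^ (1 - 2 * δ) * T ^ (1 + ε) / T ^ (2 - 2 * ρ) := by
          rw [← Real.rpow_add hT0, ← Real.rpow_add hT0, ← Real.rpow_sub hT0]
          congr 1
          rw [hε]
          ring
        rw [hq, e1, e2, e3]
        have h5 : T ^ (2 - 2 * ρ) ≠ 0 := by positivity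
        field_simp
        ring

end Pool.Agent.J4H8.GD
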